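import Mathlib
import Pool.Prelude.Def_F_72ad9e24
import Pool.Agent.Helper6.LehmerSearch

/-!
An upper bound for the solutions of `n ≡ a(n) (mod φ(n))` in terms of the number of prime factors.
-/

namespace Pool.Agent.Helper6.Retired.DoubleExpBound

open Pool.Agent.Helper6.Lehmer

/-- Let `n > 4` be composite with `n ≡ a(n) (mod φ(n))`, where `a(n)` is the largest exponent in
the prime factorisation of `n`, and let `K` be the number of distinct prime factors of `n`. Then
`n ^ 64 < 2 ^ (2 ^ K)`, that is `n < 2 ^ (2 ^ (K - 6))`. -/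
theorem result (n : ℕ) (hn : 4 < n) (hc : ¬ n.Prime) (hd : n.totient ∣ n - Nca8c8b9b.a n) :
    n ^ 64 < 2 ^ (2 ^ n.primeFactors.card) :=
  (isLehmer_of_dvd hn hc hd).pow_lt

end Pool.Agent.Helper6.Retired.DoubleExpBound
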